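import Pool.Agent.Helper30.U.Defs2

/-!
# MP_506470_co : strong amalgamation classes, modules U-A2 and U-A3
-/

namespace SetHom
namespace Un

variable {P : ∀ α : Type, SimpleGraph α → Set α → Prop}

theorem SAC.empty (h : SAC P) {α : Type} (A : SimpleGraph α) : P α A ∅ :=
  h.comap Unit α ⊥ Set.univ A ∅ (fun _ => ()) h.pt (fun _ _ => trivial)
    (fun x hx => absurd hx (Set.notMem_empty x)) (fun x hx => absurd hx (Set.notMem_empty x))

/-- From a graph on `Fin (m + 1)` to a finite set with `m + 1` elements. -/
theorem SAC.of_fin' (h : SAC P) {m : ℕ} {B : SimpleGraph (Fin (m + 1))} (hB : P _ B Set.univ)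
    {α : Type} {A : SimpleGraph α} {T : Set α} (e : α → Fin (m + 1)) (he : Set.InjOn e T)
    (hA : ∀ x ∈ T, ∀ y ∈ T, (A.Adj x y ↔ B.Adj (e x) (e y))) : P α A T :=
  h.comap _ α B Set.univ A T e hB (fun _ _ => Set.mem_univ _) he hA

theorem exists_inj_fin {α : Type} {T : Set α} (hT : T.Finite) {m : ℕ} (hm : T.ncard ≤ m + 1) :
    ∃ e : α → Fin (m + 1), Set.InjOn e T := by
  classical
  have := hT.to_subtype
  have := Fintype.ofFinite T
  have hc : Fintype.card T ≤ Fintype.card (Fin (m + 1)) := by
    rw [Fintype.card_fin, ← Nat.card_eq_fintype_card]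
    exact hm
  obtain ⟨f⟩ := Function.Embedding.nonempty_of_card_le hc
  refine ⟨fun x => if hx : x ∈ T then f ⟨x, hx⟩ else 0, ?_⟩
  intro x hx y hy hxy
  simp only [hx, hy, dif_pos] at hxy
  exact congrArg Subtype.val (f.injective hxy)

theorem inCl_of_fin (h : SAC P) {m : ℕ} (hB : P (Fin (m + 1)) ⊤ Set.univ) : InCl P (m + 1) := by
  intro α A T hT hc hcl
  obtain ⟨e, he⟩ := exists_inj_fin hT hc
  refine h.of_fin' hB e he ?_
  intro x hx y hy
  rw [SimpleGraph.top_adj]
  by_cases hxy : x = y
  · subst hxy
    simp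
  · exact iff_of_true (hcl x hx y hy hxy) (fun e2 => hxy (he hx hy e2))

theorem inInd_of_fin (h : SAC P) {m : ℕ} (hB : P (Fin (m + 1)) ⊥ Set.univ) :
    InInd P (m + 1) := by
  intro α A T hT hc hcl
  obtain ⟨e, he⟩ := exists_inj_fin hT hc
  refine h.of_fin' hB e he ?_
  intro x hx y hy
  exact iff_of_false (hcl x hx y hy) (fun e => e)

theorem inCP3_of (h : SAC P) {α : Type} {A : SimpleGraph α} {T : Set α} (hP : P α A T)
    {l a b : α} (hl : l ∈ T) (ha : a ∈ T) (hb : b ∈ T) (hab : A.Adj a b) (hla : l ≠ a)
    (hlb : l ≠ b) (nla : ¬ A.Adj l a) (nlb : ¬ A.Adj l b) : InCP3 P := by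
  classical
  intro β B x a' b' g1 g2 g3 g4 g5
  have hg1' := g1.ne
  have g1' : ¬ B.Adj a' x := fun e => g4 e.symm
  have g2' : ¬ B.Adj b' x := fun e => g5 e.symm
  have hba : A.Adj b a := hab.symm
  have nal : ¬ A.Adj a l := fun e => nla e.symm
  have nbl : ¬ A.Adj b l := fun e => nlb e.symm
  let g : β → α := fun z => if z = x then l else if z = a' then a else b
  have gx : g x = l := if_pos rfl
  have ga : g a' = a := by
    show (if a' = x then l else if a' = a' then a else b) = a
    rw [if_neg (Ne.symm g2), if_pos rfl]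
  have gb : g b' = b := by
    show (if b' = x then l else if b' = a' then a else b) = b
    rw [if_neg (Ne.symm g3), if_neg (Ne.symm hg1')]
  have hcases : ∀ z ∈ ({x, a', b'} : Set β), z = x ∨ z = a' ∨ z = b' := by
    intro z hz
    simpa using hz
  refine h.comap α β A T B _ g hP ?_ ?_ ?_
  · intro z hz
    rcases hcases z hz with rfl | rfl | rfl
    · rw [gx]; exact hl
    · rw [ga]; exact ha
    · rw [gb]; exact hb
  · intro z hz w hw e
    rcases hcases z hz with rfl | rfl | rfl <;> rcases hcases w hw with rfl | rfl | rfl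
    · rfl
    · rw [gx, ga] at e; exact absurd e hla
    · rw [gx, gb] at e; exact absurd e hlb
    · rw [ga, gx] at e; exact absurd e.symm hla
    · rfl
    · rw [ga, gb] at e; exact absurd e hab.ne
    · rw [gb, gx] at e; exact absurd e.symm hlb
    · rw [gb, ga] at e; exact absurd e.symm hab.ne
    · rfl
  · intro z hz w hw
    rcases hcases z hz with rfl | rfl | rfl <;> rcases hcases w hw with rfl | rfl | rfl
    · simp
    · rw [gx, ga]; exact iff_of_false g4 nla
    · rw [gx, gb]; exact iff_of_false g5 nlb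
    · rw [ga, gx]; exact iff_of_false g1' nal
    · simp
    · rw [ga, gb]; exact iff_of_true g1 hab
    · rw [gb, gx]; exact iff_of_false g2' nbl
    · rw [gb, ga]; exact iff_of_true g1.symm hba
    · simp

theorem inP3_of (h : SAC P) {α : Type} {A : SimpleGraph α} {T : Set α} (hP : P α A T)
    {l a b : α} (hl : l ∈ T) (ha : a ∈ T) (hb : b ∈ T) (hla : A.Adj l a) (hlb : A.Adj l b)
    (hab : a ≠ b) (nab : ¬ A.Adj a b) : InP3 P := by
  classical
  intro β B x a' b' g1 g2 g3 g4
  have g4' : ¬ B.Adj b' a' := fun e => g4 e.symm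
  have nba : ¬ A.Adj b a := fun e => nab e.symm
  let g : β → α := fun z => if z = x then l else if z = a' then a else b
  have gx : g x = l := if_pos rfl
  have ga : g a' = a := by
    show (if a' = x then l else if a' = a' then a else b) = a
    rw [if_neg (Ne.symm g1.ne), if_pos rfl]
  have gb : g b' = b := by
    show (if b' = x then l else if b' = a' then a else b) = b
    rw [if_neg (Ne.symm g2.ne), if_neg (Ne.symm g3)]
  have hcases : ∀ z ∈ ({x, a', b'} : Set β), z = x ∨ z = a' ∨ z = b' := by
    intro z hz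
    simpa using hz
  refine h.comap α β A T B _ g hP ?_ ?_ ?_
  · intro z hz
    rcases hcases z hz with rfl | rfl | rfl
    · rw [gx]; exact hl
    · rw [ga]; exact ha
    · rw [gb]; exact hb
  · intro z hz w hw e
    rcases hcases z hz with rfl | rfl | rfl <;> rcases hcases w hw with rfl | rfl | rfl
    · rfl
    · rw [gx, ga] at e; exact absurd e hla.ne
    · rw [gx, gb] at e; exact absurd e hlb.ne
    · rw [ga, gx] at e; exact absurd e.symm hla.ne
    · rfl
    · rw [ga, gb] at e; exact absurd e hab
    · rw [gb, gx] at e; exact absurd e.symm hlb.ne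
    · rw [gb, ga] at e; exact absurd e.symm hab
    · rfl
  · intro z hz w hw
    rcases hcases z hz with rfl | rfl | rfl <;> rcases hcases w hw with rfl | rfl | rfl
    · simp
    · rw [gx, ga]; exact iff_of_true g1 hla
    · rw [gx, gb]; exact iff_of_true g2 hlb
    · rw [ga, gx]; exact iff_of_true g1.symm hla.symm
    · simp
    · rw [ga, gb]; exact iff_of_false g4 nab
    · rw [gb, gx]; exact iff_of_true g2.symm hlb.symm
    · rw [gb, ga]; exact iff_of_false g4' nba
    · simp

/-- The graph `A` with the pair `a b` made adjacent (if `e`) or non-adjacent. -/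
def setAdj {α : Type} (A : SimpleGraph α) (a b : α) (hab : a ≠ b) (e : Prop) :
    SimpleGraph α where
  Adj x y := ((x = a ∧ y = b) ∨ (x = b ∧ y = a)) ∧ e ∨
    ¬ ((x = a ∧ y = b) ∨ (x = b ∧ y = a)) ∧ A.Adj x y
  symm := ⟨by
    intro x y h
    rcases h with ⟨h1, h2⟩ | ⟨h1, h2⟩
    · left
      exact ⟨h1.elim (fun h => Or.inr ⟨h.2, h.1⟩) (fun h => Or.inl ⟨h.2, h.1⟩), h2⟩
    · right
      refine ⟨fun h3 => h1 ?_, h2.symm⟩
      exact h3.elim (fun h => Or.inr ⟨h.2, h.1⟩) (fun h => Or.inl ⟨h.2, h.1⟩)⟩
  loopless := ⟨by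
    intro x h
    rcases h with ⟨h1, -⟩ | ⟨-, h2⟩
    · rcases h1 with ⟨h3, h4⟩ | ⟨h3, h4⟩
      · exact hab (h3.symm.trans h4)
      · exact hab (h4.symm.trans h3)
    · exact A.irrefl h2⟩

theorem setAdj_ab {α : Type} {A : SimpleGraph α} {a b : α} (hab : a ≠ b) {e : Prop} :
    (setAdj A a b hab e).Adj a b ↔ e := by
  constructor
  · rintro (⟨-, h⟩ | ⟨h, -⟩)
    · exact h
    · exact absurd (Or.inl ⟨rfl, rfl⟩) h
  · exact fun h => Or.inl ⟨Or.inl ⟨rfl, rfl⟩, h⟩

theorem setAdj_ba {α : Type} {A : SimpleGraph α} {a b : α} (hab : a ≠ b) {e : Prop} :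
    (setAdj A a b hab e).Adj b a ↔ e := by
  rw [SimpleGraph.adj_comm]
  exact setAdj_ab hab

theorem setAdj_other {α : Type} {A : SimpleGraph α} {a b : α} (hab : a ≠ b) {e : Prop}
    {x y : α} (h1 : ¬ (x = a ∧ y = b)) (h2 : ¬ (x = b ∧ y = a)) :
    (setAdj A a b hab e).Adj x y ↔ A.Adj x y := by
  have h3 : ¬ ((x = a ∧ y = b) ∨ (x = b ∧ y = a)) := fun h => h.elim h1 h2
  constructor
  · rintro (⟨h, -⟩ | ⟨-, h⟩)
    · exact absurd h h3
    · exact h
  · exact fun h => Or.inr ⟨h3, h⟩

/-- Strong amalgamation, in the form: the adjacency of `a` and `b` can be chosen. -/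
theorem SAC.ap' (h : SAC P) {α : Type} [Finite α] {A : SimpleGraph α} {T : Set α} {a b : α}
    (ha : a ∈ T) (hb : b ∈ T) (hab : a ≠ b) (hPa : P α A (T \ {a})) (hPb : P α A (T \ {b})) :
    P α (setAdj A a b hab True) T ∨ P α (setAdj A a b hab False) T := by
  refine h.ap α _ _ T a b ha hb hab ?_ ((setAdj_ab hab).2 trivial)
    (fun e => (setAdj_ab hab).1 e) ?_ ?_
  · intro x y h1 h2
    rw [setAdj_other hab h1 h2, setAdj_other hab h1 h2]
  · refine h.comap α α A (T \ {a}) _ _ id hPa (fun x hx => hx) (fun _ _ _ _ e => e) ?_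
    intro x hx y hy
    exact setAdj_other hab (fun e => hx.2 e.1) (fun e => hy.2 e.2)
  · refine h.comap α α A (T \ {b}) _ _ id hPb (fun x hx => hx) (fun _ _ _ _ e => e) ?_
    intro x hx y hy
    exact setAdj_other hab (fun e => hy.2 e.2) (fun e => hx.2 e.1)

/-- module U-A2. -/
theorem sac_clique {P : ∀ α : Type, SimpleGraph α → Set α → Prop} (h : SAC P)
    (h2 : InCl P 2) (h3 : ¬ InP3 P) (n : ℕ) : InCl P n := by
  have key : ∀ m, InCl P (m + 2) := by
    intro m
    induction m with
    | zero => exact h2
    | succ m ih =>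
      apply inCl_of_fin h
      have hab : (0 : Fin (m + 2 + 1)) ≠ 1 := by
        intro e
        have := congrArg Fin.val e
        simp at this
      have hl : (2 : ℕ) < m + 2 + 1 := by omega
      have hcard : ∀ a : Fin (m + 2 + 1), (Set.univ \ {a} : Set (Fin (m + 2 + 1))).ncard =
          m + 2 := by
        intro a
        rw [Set.ncard_sdiff_singleton_of_mem (Set.mem_univ a), Set.ncard_univ,
          Nat.card_eq_fintype_card, Fintype.card_fin]
        rfl
      rcases h.ap' (A := (⊤ : SimpleGraph (Fin (m + 2 + 1)))) (T := Set.univ)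
        (Set.mem_univ (0 : Fin (m + 2 + 1))) (Set.mem_univ 1) hab
        (ih _ _ _ (Set.toFinite _) (hcard _).le (fun x _ y _ hxy => hxy))
        (ih _ _ _ (Set.toFinite _) (hcard _).le (fun x _ y _ hxy => hxy)) with h4 | h4
      · refine h.comap _ _ _ _ ⊤ Set.univ id h4 (fun x hx => hx) (fun _ _ _ _ e => e) ?_
        intro x _ y _
        show (⊤ : SimpleGraph (Fin (m + 2 + 1))).Adj x y ↔ _
        by_cases e1 : x = 0 ∧ y = 1
        · obtain ⟨rfl, rfl⟩ := e1
          exact iff_of_true hab ((setAdj_ab hab).2 trivial)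
        · by_cases e2 : x = 1 ∧ y = 0
          · obtain ⟨rfl, rfl⟩ := e2
            exact iff_of_true hab.symm ((setAdj_ba hab).2 trivial)
          · exact (setAdj_other hab e1 e2).symm
      · exfalso
        apply h3
        have h02 : (⟨2, hl⟩ : Fin (m + 2 + 1)) ≠ 0 := by
          intro e
          have := congrArg Fin.val e
          simp at this
        have h12 : (⟨2, hl⟩ : Fin (m + 2 + 1)) ≠ 1 := by
          intro e
          have := congrArg Fin.val e
          simp at this
        refine inP3_of h h4 (l := ⟨2, hl⟩) (a := 0) (b := 1) (Set.mem_univ _) (Set.mem_univ _)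
          (Set.mem_univ _) ?_ ?_ hab (fun e => (setAdj_ab hab).1 e)
        · rw [setAdj_other hab (fun e => h02 e.1) (fun e => h12 e.1)]
          exact h02
        · rw [setAdj_other hab (fun e => h02 e.1) (fun e => h12 e.1)]
          exact h12
  intro α A T hT hc hcl
  exact key n α A T hT (by omega) hcl

/-- module U-A3. -/
theorem sac_star {P : ∀ α : Type, SimpleGraph α → Set α → Prop} (h : SAC P)
    (h2 : InCl P 2) (h2' : InInd P 2) (h3 : ¬ InCP3 P) :
    InInd P 3 ∧ ∀ (α : Type) [Finite α] (H : SimpleGraph α) (T : Set α) (c : α), c ∈ T →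
      (∀ x ∈ T, x ≠ c → H.Adj c x) → (∀ x ∈ T, x ≠ c → ∀ y ∈ T, y ≠ c → ¬ H.Adj x y) →
      P α H T := by
  classical
  have hcard : ∀ a : Fin 3, (Set.univ \ {a} : Set (Fin 3)).ncard = 2 := by
    intro a
    rw [Set.ncard_sdiff_singleton_of_mem (Set.mem_univ a), Set.ncard_univ,
      Nat.card_eq_fintype_card, Fintype.card_fin]
  have h01 : (0 : Fin 3) ≠ 1 := by decide
  have h20 : (2 : Fin 3) ≠ 0 := by decide
  have h21 : (2 : Fin 3) ≠ 1 := by decide
  -- three independent points
  have hI3 : InInd P 3 := by
    apply inInd_of_fin h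
    rcases h.ap' (A := (⊥ : SimpleGraph (Fin 3))) (T := Set.univ)
        (Set.mem_univ (0 : Fin 3)) (Set.mem_univ 1) h01
        (h2' _ _ _ (Set.toFinite _) (hcard _).le (fun x _ y _ hxy => hxy))
        (h2' _ _ _ (Set.toFinite _) (hcard _).le (fun x _ y _ hxy => hxy)) with h4 | h4
    · exfalso
      apply h3
      refine inCP3_of h h4 (l := 2) (a := 0) (b := 1) (Set.mem_univ _) (Set.mem_univ _)
        (Set.mem_univ _) ((setAdj_ab h01).2 trivial) h20 h21 ?_ ?_
      · rw [setAdj_other h01 (fun e => h20 e.1) (fun e => h21 e.1)]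
        exact fun e => e
      · rw [setAdj_other h01 (fun e => h20 e.1) (fun e => h21 e.1)]
        exact fun e => e
    · refine h.comap _ _ _ _ ⊥ Set.univ id h4 (fun x hx => hx) (fun _ _ _ _ e => e) ?_
      intro x _ y _
      show (⊥ : SimpleGraph (Fin 3)).Adj x y ↔ _
      by_cases e1 : x = 0 ∧ y = 1
      · obtain ⟨rfl, rfl⟩ := e1
        exact iff_of_false (fun e => e) (fun e => (setAdj_ab h01).1 e)
      · by_cases e2 : x = 1 ∧ y = 0
        · obtain ⟨rfl, rfl⟩ := e2
          exact iff_of_false (fun e => e) (fun e => (setAdj_ba h01).1 e)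
        · exact (setAdj_other h01 e1 e2).symm
  -- paths
  have hP3 : InP3 P := by
    -- the edge `2 0`, base point `2`, `a = 0`, `b = 1`
    let E : SimpleGraph (Fin 3) := setAdj ⊥ 2 0 h20 True
    have hE20 : E.Adj 2 0 := (setAdj_ab h20).2 trivial
    have hE21 : ¬ E.Adj 2 1 := by
      rw [setAdj_other h20 (fun e => h01 e.2.symm) (fun e => h20 e.1)]
      exact fun e => e
    rcases h.ap' (A := E) (T := Set.univ)
        (Set.mem_univ (0 : Fin 3)) (Set.mem_univ 1) h01
        (h2' _ _ _ (Set.toFinite _) (hcard _).le (by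
          intro x hx y hy hxy
          rcases hxy with ⟨h5 | h5, -⟩ | ⟨-, h5⟩
          · exact hy.2 h5.2
          · exact hx.2 h5.1
          · exact h5))
        (h2 _ _ _ (Set.toFinite _) (hcard _).le (by
          intro x hx y hy hxy
          have hx1 : x ≠ 1 := hx.2
          have hy1 : y ≠ 1 := hy.2
          have hx2 : x = 0 ∨ x = 2 := by
            fin_cases x
            · left; rfl
            · exact absurd rfl hx1
            · right; rfl
          have hy2 : y = 0 ∨ y = 2 := by
            fin_cases y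
            · left; rfl
            · exact absurd rfl hy1
            · right; rfl
          rcases hx2 with rfl | rfl <;> rcases hy2 with rfl | rfl
          · exact absurd rfl hxy
          · exact hE20.symm
          · exact hE20
          · exact absurd rfl hxy)) with h4 | h4
    · refine inP3_of h h4 (l := 0) (a := 2) (b := 1) (Set.mem_univ _) (Set.mem_univ _)
        (Set.mem_univ _) ?_ ((setAdj_ab h01).2 trivial) h21 ?_
      · rw [setAdj_other h01 (fun e => h21 e.2) (fun e => h01 e.1)]
        exact hE20.symm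
      · rw [setAdj_other h01 (fun e => h20 e.1) (fun e => h21 e.1)]
        exact hE21
    · exfalso
      apply h3
      refine inCP3_of h h4 (l := 1) (a := 2) (b := 0) (Set.mem_univ _) (Set.mem_univ _)
        (Set.mem_univ _) ?_ (Ne.symm h21) (Ne.symm h01) ?_ ?_
      · rw [setAdj_other h01 (fun e => h20 e.1) (fun e => h21 e.1)]
        exact hE20
      · rw [setAdj_other h01 (fun e => h01 e.1.symm) (fun e => h20 e.2)]
        exact fun e => hE21 e.symm
      · exact fun e => (setAdj_ba h01).1 e
  refine ⟨hI3, ?_⟩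
  have key : ∀ (n : ℕ) (α : Type) [Finite α] (H : SimpleGraph α) (T : Set α) (c : α), c ∈ T →
      T.ncard ≤ n →
      (∀ x ∈ T, x ≠ c → H.Adj c x) → (∀ x ∈ T, x ≠ c → ∀ y ∈ T, y ≠ c → ¬ H.Adj x y) →
      P α H T := by
    intro n
    induction n with
    | zero =>
      intro α _ H T c hc hn h1 h4
      exfalso
      have : 0 < T.ncard := (Set.ncard_pos (Set.toFinite _)).2 ⟨c, hc⟩
      omega
    | succ n ih =>
      intro α _ H T c hc hn h1 h4
      -- the leaves
      have hL : (T \ {c}).ncard + 1 = T.ncard := Set.ncard_sdiff_singleton_add_one hc (Set.toFinite _)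
      by_cases hs : (T \ {c}).ncard ≤ 1
      · -- at most one leaf
        refine h2 α H T (Set.toFinite _) (by omega) ?_
        intro x hx y hy hxy
        by_cases hxc : x = c
        · subst hxc
          exact h1 y hy (Ne.symm hxy)
        · by_cases hyc : y = c
          · subst hyc
            exact (h1 x hx hxc).symm
          · exfalso
            apply hxy
            exact (Set.ncard_le_one (Set.toFinite _)).1 hs x ⟨hx, hxc⟩ y ⟨hy, hyc⟩
      · obtain ⟨a, b, ha, hb, hab⟩ := (Set.one_lt_ncard_iff (Set.toFinite _)).1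
          (show 1 < (T \ {c}).ncard by omega)
        by_cases hs2 : (T \ {c}).ncard ≤ 2
        · -- two leaves
          have hT : T = {c, a, b} := by
            have hsub : ({a, b} : Set α) ⊆ T \ {c} := by
              intro z hz
              rcases hz with rfl | hz
              · exact ha
              · rw [Set.mem_singleton_iff.1 hz]
                exact hb
            have heq : ({a, b} : Set α) = T \ {c} :=
              Set.eq_of_subset_of_ncard_le hsub (by rw [Set.ncard_pair hab]; exact hs2)
                (Set.toFinite _)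
            ext z
            constructor
            · intro hz
              by_cases hzc : z = c
              · rw [hzc]
                simp
              · have : z ∈ ({a, b} : Set α) := by
                  rw [heq]
                  exact ⟨hz, hzc⟩
                exact Or.inr this
            · rintro (rfl | hz)
              · exact hc
              · rw [heq] at hz
                exact hz.1
          rw [hT]
          exact hP3 α H c a b (h1 a ha.1 ha.2) (h1 b hb.1 hb.2) hab
            (h4 a ha.1 ha.2 b hb.1 hb.2)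
        · -- a third leaf
          obtain ⟨l, hl, hl2⟩ : ∃ l ∈ T \ {c}, l ∉ ({a, b} : Set α) := by
            refine Set.exists_mem_notMem_of_ncard_lt_ncard ?_ (Set.toFinite _)
            rw [Set.ncard_pair hab]
            omega
          have hla : l ≠ a := fun e => hl2 (by rw [e]; simp)
          have hlb : l ≠ b := fun e => hl2 (by rw [e]; simp)
          have hsmall : ∀ z ∈ T, z ≠ c → P α H (T \ {z}) := by
            intro z hz hzc
            refine ih α H (T \ {z}) c ⟨hc, fun e => hzc e.symm⟩ ?_
              (fun x hx hxc => h1 x hx.1 hxc) (fun x hx hxc y hy hyc => h4 x hx.1 hxc y hy.1 hyc)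
            have := Set.ncard_sdiff_singleton_add_one hz (Set.toFinite T)
            omega
          rcases h.ap' (A := H) (T := T) ha.1 hb.1 hab (hsmall a ha.1 ha.2) (hsmall b hb.1 hb.2)
            with h5 | h5
          · exfalso
            apply h3
            refine inCP3_of h h5 hl.1 ha.1 hb.1 ((setAdj_ab hab).2 trivial) hla hlb ?_ ?_
            · rw [setAdj_other hab (fun e => hla e.1) (fun e => hlb e.1)]
              exact h4 l hl.1 hl.2 a ha.1 ha.2
            · rw [setAdj_other hab (fun e => hla e.1) (fun e => hlb e.1)]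
              exact h4 l hl.1 hl.2 b hb.1 hb.2
          · refine h.comap _ _ _ _ H T id h5 (fun x hx => hx) (fun _ _ _ _ e => e) ?_
            intro x _ y _
            show H.Adj x y ↔ _
            by_cases e1 : x = a ∧ y = b
            · obtain ⟨rfl, rfl⟩ := e1
              exact iff_of_false (h4 _ ha.1 ha.2 _ hb.1 hb.2) (fun e => (setAdj_ab hab).1 e)
            · by_cases e2 : x = b ∧ y = a
              · obtain ⟨rfl, rfl⟩ := e2
                exact iff_of_false (h4 _ hb.1 hb.2 _ ha.1 ha.2) (fun e => (setAdj_ba hab).1 e)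
              · exact (setAdj_other hab e1 e2).symm
  intro α _ H T c hc h1 h4
  exact key T.ncard α H T c hc le_rfl h1 h4

end Un
end SetHom
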